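import Pool.Agent.SSF.Stmts

/-!
# Squad SSF, row IMM: the embedding
-/

set_option autoImplicit false

open Set Topology
open scoped BigOperators

namespace Pool.Agent.SSF.H23

open Pool.Agent.LSG Pool.Agent.LPR Pool.Agent.SSF

theorem imm (hG : GmcStmt) (hU : UnmStmt) : ImmStmt := by
  classical
  intro S M _ _ _ O ρ χ ψ K c p η w θ ν hP hL hC hW F hF
  obtain ⟨hFc, hF0, hF1⟩ := hF
  obtain ⟨hU1, hU2⟩ := hU S M O ρ χ ψ K c p η w θ hP hL hC
  have hGm : ∀ m k, (∀ s n u, Gm (η m k) (ψ m k) F (s, η m k n u) =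
        ψ m k (s, u) * F ((s, u), ((n : ℕ) : OnePoint ℕ))) ∧
      (∀ s, Gm (η m k) (ψ m k) F (s, p m k) = 0) ∧ IsClosed (Lim (p m k) (η m k)) ∧
      ContinuousOn (Gm (η m k) (ψ m k) F) (Set.univ ×ˢ Lim (p m k) (η m k)) := fun m k =>
    hG S M (p m k) (η m k) ((1 / 2 : ℝ) ^ (m + 6)) (ψ m k) F (hL.cont m k) (hL.inj m k)
      (hL.ne m k) (hL.conv m k) (hP.psi01 m k) hFc hF1
  let E : ℕ × ℕ → S × M → ℝ := fun α x =>
    (ν α.1 α.2 x.2).sum fun a r => r * Gm (η α.1 α.2) (ψ α.1 α.2) F (x.1, a)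
  let T : ℕ × ℕ → S × M → ℝ := fun α x => θ α.1 (ρ x) * w α.1 α.2 x.2 * E α x
  have him : ∀ x, im θ ρ ψ η w ν F x = ∑ᶠ α, T α x := fun x => rfl
  have hEc : ∀ α, Continuous (E α) := fun α => hW.cont α.1 α.2 S _ (hGm α.1 α.2).2.2.2
  have hTc : ∀ α, Continuous (T α) := by
    intro α
    have h1 : Continuous fun x : S × M => θ α.1 (ρ x) := (θ α.1).continuous.comp ρ.continuous
    have h2 : Continuous fun x : S × M => w α.1 α.2 x.2 :=
      (w α.1 α.2).continuous.comp continuous_snd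
    exact (h1.mul h2).mul (hEc α)
  have hT1 : ∀ x α β, T α x ≠ 0 → T β x ≠ 0 → α = β := by
    intro x α β hα hβ
    obtain ⟨e1, e2⟩ := hU1 x α.1 α.2 β.1 β.2 (left_ne_zero_of_mul hα) (left_ne_zero_of_mul hβ)
    exact Prod.ext e1 e2
  have hoff : ∀ x, x ∉ O → ∀ α, T α x = 0 := by
    intro x hx α
    by_contra hne
    have g1 : θ α.1 (ρ x) ≠ 0 := left_ne_zero_of_mul (left_ne_zero_of_mul hne)
    have h0 : ρ x = 0 := by
      by_contra h1
      exact hx ((hP.zero x).1 h1)
    rw [h0] at g1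
    exact absurd (hC.supp _ _ g1).1 (not_lt.2 (by positivity))
  have hbd : ∀ (α : ℕ × ℕ) (x : S × M) (ε : ℝ), 0 < ε →
      (∀ (n : ℕ) (u : M), ψ α.1 α.2 (x.1, u) ≠ 0 →
        |F ((x.1, u), ((n : ℕ) : OnePoint ℕ))| ≤ ε) → |T α x| ≤ ε := by
    intro α x ε hε hx
    have h1 : ∀ a, ν α.1 α.2 x.2 a ≠ 0 → |Gm (η α.1 α.2) (ψ α.1 α.2) F (x.1, a)| ≤ ε := by
      intro a ha
      rcases hW.supp _ _ _ _ ha with h2 | ⟨n, u, h2⟩
      · rw [h2, (hGm α.1 α.2).2.1, abs_zero]
        exact hε.le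
      · rw [← h2, (hGm α.1 α.2).1]
        by_cases h3 : ψ α.1 α.2 (x.1, u) = 0
        · rw [h3, zero_mul, abs_zero]
          exact hε.le
        · have c1 := hP.psi01 α.1 α.2 (x.1, u)
          rw [abs_mul, abs_of_nonneg c1.1]
          calc ψ α.1 α.2 (x.1, u) * |F ((x.1, u), ((n : ℕ) : OnePoint ℕ))|
              ≤ 1 * ε := mul_le_mul c1.2 (hx n u h3) (abs_nonneg _) zero_le_one
            _ = ε := one_mul _
    have h2 : |E α x| ≤ ε := by
      show |(ν α.1 α.2 x.2).sum fun a r => r * Gm (η α.1 α.2) (ψ α.1 α.2) F (x.1, a)| ≤ ε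
      have h3 : (∑ a ∈ (ν α.1 α.2 x.2).support, ν α.1 α.2 x.2 a) = 1 := hW.sum α.1 α.2 x.2
      calc |(ν α.1 α.2 x.2).sum fun a r => r * Gm (η α.1 α.2) (ψ α.1 α.2) F (x.1, a)|
          ≤ ∑ a ∈ (ν α.1 α.2 x.2).support,
              |ν α.1 α.2 x.2 a * Gm (η α.1 α.2) (ψ α.1 α.2) F (x.1, a)| :=
            Finset.abs_sum_le_sum_abs _ _
        _ ≤ ∑ a ∈ (ν α.1 α.2 x.2).support, ν α.1 α.2 x.2 a * ε := by
            refine Finset.sum_le_sum fun a ha => ?_
            rw [abs_mul, abs_of_nonneg (hW.nonneg _ _ _ _)]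
            exact mul_le_mul_of_nonneg_left (h1 a (Finsupp.mem_support_iff.1 ha))
              (hW.nonneg _ _ _ _)
        _ = ε := by rw [← Finset.sum_mul, h3, one_mul]
    have t1 := hC.bd α.1 (ρ x)
    have w1 := hL.w01 α.1 α.2 x.2
    show |θ α.1 (ρ x) * w α.1 α.2 x.2 * E α x| ≤ ε
    rw [abs_mul, abs_mul, abs_of_nonneg t1.1, abs_of_nonneg w1.1]
    have h5 : θ α.1 (ρ x) * w α.1 α.2 x.2 ≤ 1 := mul_le_one₀ t1.2 w1.1 w1.2
    calc θ α.1 (ρ x) * w α.1 α.2 x.2 * |E α x| ≤ 1 * ε :=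
          mul_le_mul h5 h2 (abs_nonneg _) zero_le_one
      _ = ε := one_mul _
  refine ⟨?_, ?_⟩
  · refine continuous_iff_continuousAt.2 fun x₀ => ?_
    by_cases hx : x₀ ∈ O
    · have hr : 0 < ρ x₀ := lt_of_le_of_ne (hP.nonneg x₀) (Ne.symm ((hP.zero x₀).2 hx))
      obtain ⟨N, hN⟩ := exists_pow_lt_of_lt_one (show (0 : ℝ) < ρ x₀ / 32 by positivity)
        (show (1 / 2 : ℝ) < 1 by norm_num)
      let Fs : Finset (ℕ × ℕ) := Finset.range N ×ˢ Finset.range (∑ m ∈ Finset.range N, K m)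
      have e2 : ∀ᶠ x in 𝓝 x₀, ρ x₀ / 2 < ρ x :=
        ρ.continuous.continuousAt.eventually (lt_mem_nhds (by linarith))
      have h1 : ∀ᶠ x in 𝓝 x₀, (∑ α ∈ Fs, T α x) = im θ ρ ψ η w ν F x := by
        filter_upwards [e2] with x hx2
        rw [him]
        refine (finsum_eq_sum_of_support_subset _ (s := Fs) (fun α hα => ?_)).symm
        have g1 : θ α.1 (ρ x) ≠ 0 :=
          left_ne_zero_of_mul (left_ne_zero_of_mul (Function.mem_support.1 hα))
        have g2 : w α.1 α.2 x.2 ≠ 0 :=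
          right_ne_zero_of_mul (left_ne_zero_of_mul (Function.mem_support.1 hα))
        have g3 := (hC.supp _ _ g1).2
        have g4 := (hL.supp _ _ _ g2).1
        have hm : α.1 < N := by
          by_contra hcon
          have h5 : (1 / 2 : ℝ) ^ α.1 ≤ (1 / 2 : ℝ) ^ N :=
            pow_le_pow_of_le_one (by norm_num) (by norm_num) (not_lt.1 hcon)
          linarith
        have hk : K α.1 ≤ ∑ m ∈ Finset.range N, K m :=
          Finset.single_le_sum (f := K) (fun i _ => Nat.zero_le _) (Finset.mem_range.2 hm)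
        rw [Finset.mem_coe, Finset.mem_product, Finset.mem_range, Finset.mem_range]
        exact ⟨hm, lt_of_lt_of_le g4 hk⟩
      have hg : Continuous fun x => ∑ α ∈ Fs, T α x := continuous_finsetSum _ fun α _ => hTc α
      exact (hg.continuousAt (x := x₀)).congr h1
    · have hρ0 : ρ x₀ = 0 := by
        by_contra hne
        exact hx ((hP.zero x₀).1 hne)
      have hz0 : im θ ρ ψ η w ν F x₀ = 0 := by
        rw [him, finsum_congr (hoff x₀ hx), finsum_zero]
      refine Metric.tendsto_nhds.2 fun ε hε => ?_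
      rw [hz0]
      have h1 : ∀ᶠ y in 𝓝 x₀, ∀ n ∈ (Set.univ : Set (OnePoint ℕ)), |F (y, n)| < ε / 2 := by
        refine isCompact_univ.eventually_forall_of_forall_eventually (fun n _ => ?_)
        have hc : Continuous fun y : (S × M) × OnePoint ℕ => |F (y.1, y.2)| :=
          continuous_abs.comp hFc
        have h0 : |F (x₀, n)| < ε / 2 := by
          rw [hF0 x₀ hx n, abs_zero]
          positivity
        exact hc.continuousAt.eventually (gt_mem_nhds h0)
      obtain ⟨A, hA, B, hB, hAB⟩ := mem_nhds_prod_iff.1 h1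
      obtain ⟨δ, hδ, hδB⟩ := Metric.mem_nhds_iff.1 hB
      have e1 : ∀ᶠ x in 𝓝 x₀, x.1 ∈ A := continuous_fst.continuousAt.eventually hA
      have e2 : ∀ᶠ x in 𝓝 x₀, ρ x < δ / 2 :=
        ρ.continuous.continuousAt.eventually (gt_mem_nhds (by rw [hρ0]; positivity))
      have e3 : ∀ᶠ x in 𝓝 x₀, dist x.2 x₀.2 < δ / 2 :=
        (continuous_snd.continuousAt (x := x₀)).eventually (Metric.ball_mem_nhds _ (by positivity))
      filter_upwards [e1, e2, e3] with x hx1 hx2 hx3
      rw [Real.dist_eq, sub_zero, him]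
      have hle : ∀ α, |T α x| ≤ ε / 2 := by
        intro α
        by_cases hz : T α x = 0
        · rw [hz, abs_zero]
          positivity
        · have g1 : θ α.1 (ρ x) ≠ 0 := left_ne_zero_of_mul (left_ne_zero_of_mul hz)
          have g2 : w α.1 α.2 x.2 ≠ 0 := right_ne_zero_of_mul (left_ne_zero_of_mul hz)
          refine hbd α x (ε / 2) (by positivity) fun n u hu => ?_
          have g3 := (hC.supp _ _ g1).1
          have g4 := (hU2 x.1 x.2 u α.1 α.2 g2 hu).1
          have h6 : dist u x₀.2 < δ := by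
            have h7 : dist u x.2 < δ / 2 := by
              rw [dist_comm]
              linarith
            have h8 := dist_triangle u x.2 x₀.2
            linarith
          have h9 : (x.1, u) ∈ A ×ˢ B := ⟨hx1, hδB h6⟩
          exact (hAB h9 _ (Set.mem_univ _)).le
      by_cases hall : ∀ α, T α x = 0
      · rw [finsum_congr hall, finsum_zero, abs_zero]
        exact hε
      · push Not at hall
        obtain ⟨β, hβ⟩ := hall
        have h1 : ∑ᶠ α, T α x = T β x := finsum_eq_single _ β (fun α hα => by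
          by_contra hne
          exact hα (hT1 x α β hne hβ))
        rw [h1]
        exact lt_of_le_of_lt (hle β) (by linarith)
  · intro x hx
    show im θ ρ ψ η w ν F x = 0
    rw [him, finsum_congr (hoff x hx), finsum_zero]

end Pool.Agent.SSF.H23
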